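import Pool.Agent.H27AI.UniformK

/-!
# Addition-invariant first-order logic and context-free languages

The definitions of the logic (`Fml`, `Sat`, `AddInvariant`, `langOf`, `Definable`) are in
`Pool/Agent/H66/AI/Defs.lean`.
-/

namespace Pool.Agent.Results.MP_244f5f_lc.ContextFree

open AddInv

/-- Let `L` be definable in addition-invariant first-order logic. There is a regular language
`K` such that for every context-free `M`: if `M` is contained in `L` then `M` minus `K` is
finite; if `M` is disjoint from `L` then the intersection of `M` and `K` is finite; if `M` is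
contained in the symmetric difference of `L` and `K` then `M` is finite. Moreover, if `L` and
its complement are context-free, then `L` is regular. -/
theorem result {A : Type} [Finite A] (L : Language A) (hL : Definable L) :
    (∃ K : Language A, K.IsRegular ∧ ∀ M : Language A, M.IsContextFree →
      ((∀ w ∈ M, w ∈ L) → {w | w ∈ M ∧ w ∉ K}.Finite) ∧
      ((∀ w ∈ M, w ∉ L) → {w | w ∈ M ∧ w ∈ K}.Finite) ∧
      ((∀ w ∈ M, ¬ (w ∈ L ↔ w ∈ K)) → {w | w ∈ M}.Finite)) ∧
    (L.IsContextFree → Language.IsContextFree Lᶜ → L.IsRegular) := by
  refine ⟨?_, regular_of_cf hL⟩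
  obtain ⟨K, hK, h⟩ := cf_immunity hL
  exact ⟨K, hK, fun M hM => ⟨(h M hM).2.1, (h M hM).2.2, (h M hM).1⟩⟩

end Pool.Agent.Results.MP_244f5f_lc.ContextFree
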