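import Pool.Agent.H66.AI.Nerode

/-!
# Addition-invariant first-order logic: residuals and regularity

The definitions of the logic (`Fml`, `Sat`, `AddInvariant`, `langOf`, `Definable`) and `SyntEq`
are in `Pool/Agent/H66/AI/Defs.lean`.
-/

namespace Pool.Agent.Results.MP_244f5f_lc.Residuals

open AddInv

/-- Let `L` be definable in addition-invariant first-order logic. The following are equivalent:
(1) `L` is regular;
(2) for some `k`, every word of length `k` is syntactically equivalent to some longer word;
(3) for some `k`, every word of length `k` has the same residual as some longer word;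
(4) for some `k`, for every word `u` of length `k` there are words `c`, `Z`, `Y` with `Z`
nonempty such that for all `z` and all `d > 0` there is a positive multiple `i` of `d` for which
`u z` and `c Z^i Y z` are both in `L` or both outside `L`. -/
theorem result {A : Type} [Finite A] (L : Language A) (hL : Definable L) :
    List.TFAE [L.IsRegular,
      ∃ k : ℕ, ∀ u : List A, u.length = k → ∃ v : List A, k < v.length ∧ SyntEq L u v,
      ∃ k : ℕ, ∀ u : List A, u.length = k → ∃ v : List A, k < v.length ∧
        ∀ z : List A, (u ++ z ∈ L ↔ v ++ z ∈ L),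
      ∃ k : ℕ, ∀ u : List A, u.length = k → ∃ c Z Y : List A, Z ≠ [] ∧
        ∀ z : List A, ∀ d > 0, ∃ i > 0, d ∣ i ∧
          (u ++ z ∈ L ↔ c ++ (List.replicate i Z).flatten ++ Y ++ z ∈ L)] := by
  obtain ⟨f, hf, rfl⟩ := hL
  tfae_have 1 → 2 := expand_of_regular
  tfae_have 2 → 3 := by
    rintro ⟨k, hk⟩
    refine ⟨k, fun u hu => ?_⟩
    obtain ⟨v, hv1, hv2⟩ := hk u hu
    exact ⟨v, hv1, fun z => hv2 [] z⟩
  tfae_have 3 → 4 := by
    rintro ⟨k, hk⟩
    refine ⟨k, fun u hu => ?_⟩
    obtain ⟨c, Z, Y, hZ, hcz, huy⟩ := ner_pad k hk u hu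
    refine ⟨c, Z, Y, List.length_pos_iff.1 hZ, fun z d hd => ⟨d, hd, dvd_rfl, ?_⟩⟩
    have h1 := huy z
    have h2 := hcz.pow d (Y ++ z)
    rw [h1, List.append_assoc, h2]
    simp only [List.append_assoc]
  tfae_have 4 → 1 := by
    rintro ⟨k, hk⟩
    exact regular_of_limits hf k hk
  tfae_finish

end Pool.Agent.Results.MP_244f5f_lc.Residuals
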