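import Pool.Agent.H27AI.Mix
import Pool.Agent.H27AI.RealW

/-!
# Addition-invariant first-order logic: one regular language for all products of few powers

The definitions of the logic (`Fml`, `Sat`, `AddInvariant`, `langOf`, `Definable`) are in
`Pool/Agent/H66/AI/Defs.lean`; `expand` and `cost` are in `Pool/Agent/H66/AI/PumpDefs.lean`.

The proof numbers the words `x_0 Z_0^i x_1 Z_1^i ...` in base `T + 1`, where `T` is the total
length of the bases: the place of the letters outside the powers is marked by powers of `T + 1`,
and the leading digit of the remainder of a number is the place of its letter in the bases. All
atomic relations are then decided digit by digit, so the rest of the word acts through a finite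
set whose size does not depend on the bases. A swapping argument makes the resulting regular
language independent of the bases.
-/

namespace Pool.Agent.Results.MP_244f5f_lc.UniformPowers

open AddInv

/-- Let `L` be definable in addition-invariant first-order logic. There are one constant `C` and
one regular language `K` such that `L` and `K` contain the same words among all words
`Z_1^{v_1} ... Z_k^{v_k}` of length at least `C (|Z_1| + ... + |Z_k|)`, for bases of any
length. -/
theorem result {A : Type} [Finite A] (L : Language A) (hL : Definable L) :
    ∃ (C : ℕ) (K : Language A), K.IsRegular ∧
      ∀ l : List (List A × ℕ), C * cost l ≤ (expand l).length →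
        (expand l ∈ L ↔ expand l ∈ K) := by
  obtain ⟨f, hf, rfl⟩ := hL
  exact uniform_few_powers_of hf (uniform_types hf 2)

end Pool.Agent.Results.MP_244f5f_lc.UniformPowers
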